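import Pool.Agent.H223R3.Tree.Pack

set_option autoImplicit false

namespace Pool.Agent.Results.MP_d51747_co.PackManyVertices

/-- `T_2, ..., T_k` pack into every graph of average degree at least `k - 1` on
`n > 2 k + 1 - √(8 k)` vertices. -/
theorem result (k n : ℕ) (hk : 2 ≤ k) (hn : 2 * (k : ℝ) + 1 - Real.sqrt (8 * k) < n)
    (T : (i : ℕ) → SimpleGraph (Fin i)) (hT : ∀ i, 2 ≤ i → i ≤ k → (T i).IsTree)
    (G : SimpleGraph (Fin n)) (hG : ((k : ℝ) - 1) / 2 * n ≤ G.edgeSet.ncard) :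
    ∃ f : (i : ℕ) → Fin i → Fin n,
      (∀ i, 2 ≤ i → i ≤ k → Function.Injective (f i) ∧
        ∀ a b : Fin i, (T i).Adj a b → G.Adj (f i a) (f i b)) ∧
      (∀ i j, 2 ≤ i → i ≤ k → 2 ≤ j → j ≤ k → i ≠ j →
        ∀ (a b : Fin i) (c d : Fin j), (T i).Adj a b → (T j).Adj c d →
          s(f i a, f i b) ≠ s(f j c, f j d)) := by
  have hn0 : (0 : ℝ) < n := by
    refine lt_of_le_of_lt ?_ hn
    have h8 : (0 : ℝ) ≤ 8 * k := by positivity
    have hs := Real.sqrt_nonneg (8 * (k : ℝ))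
    have hsq := Real.sq_sqrt h8
    have hk' : (2 : ℝ) ≤ k := by exact_mod_cast hk
    have : Real.sqrt (8 * k) ≤ 2 * k := by
      rw [Real.sqrt_le_left (by positivity)]
      nlinarith
    linarith
  have hn1 : 0 < n := by exact_mod_cast hn0
  have : Nonempty (Fin n) := ⟨⟨0, hn1⟩⟩
  apply H223R3.Tree.pack k hk T hT G
  · rw [Nat.card_eq_fintype_card, Fintype.card_fin]
    have h5 : (((k - 1) * n : ℕ) : ℝ) ≤ ((2 * G.edgeSet.ncard : ℕ) : ℝ) := by
      push_cast [Nat.cast_sub (by omega : 1 ≤ k)]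
      linarith
    exact_mod_cast h5
  · rw [Nat.card_eq_fintype_card, Fintype.card_fin]
    exact hn

end Pool.Agent.Results.MP_d51747_co.PackManyVertices
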